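import Pool.Agent.Lib.BE.SpecA

/-!
PROJECT BE, part A, module CoC (helper40): counting the solutions of simultaneous divisibilities in a set which is
well distributed in residue classes (port of CG/Ma/CoF.lean to the forms `a b + c`).
-/

set_option autoImplicit false

namespace Pool.Agent.Lib.BE

open Finset
open Pool.Agent.Lib.MP_9f2731_nt.GP
open Pool.Agent.Lib.MP_9f2731_nt.GP.Sv
open Pool.Agent.Lib.MP_9f2731_nt.QL
open Pool.Agent.Lib.MP_9f2731_nt.QL.Sw
open Pool.Agent.Lib.MP_9f2731_nt.CG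
open Pool.Agent.Lib.MP_9f2731_nt.CG.Ma

/-- the solutions of one divisibility -/
private theorem CoC_mod {V : ℕ} {R : ℝ} {a c d b b0 : ℕ} (ha : ∀ p ∈ QsV V R, ¬ p ∣ a)
    (hd : d ∣ PqV V R) (h0 : d ∣ a * b0 + c) : d ∣ a * b + c ↔ b ≡ b0 [MOD d] := by
  have hc : Nat.Coprime d a := by
    rw [Nat.coprime_iff_gcd_eq_one]
    by_contra hcon
    obtain ⟨p, hp, hpg⟩ := Nat.exists_prime_and_dvd hcon
    have h1 : p ∣ d := hpg.trans (Nat.gcd_dvd_left _ _)
    have h2 : p ∣ a := hpg.trans (Nat.gcd_dvd_right _ _)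
    exact ha p ((prime_dvd_PqV hp).1 (h1.trans hd)) h2
  have hz : ∀ e : ℕ, d ∣ a * e + c ↔ a * e + c ≡ 0 [MOD d] := fun e =>
    (Nat.modEq_zero_iff_dvd).symm
  constructor
  · intro h
    have h1 : a * b + c ≡ a * b0 + c [MOD d] := ((hz b).1 h).trans ((hz b0).1 h0).symm
    have h2 : a * b ≡ a * b0 [MOD d] := Nat.ModEq.add_right_cancel' c h1
    exact Nat.ModEq.cancel_left_of_coprime hc h2
  · intro h
    rw [hz]
    refine Nat.ModEq.trans ?_ ((hz b0).1 h0)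
    exact ((Nat.ModEq.refl a).mul h).add (Nat.ModEq.refl c)

private theorem CoC_lcm {ι : Type} [Fintype ι] {b b0 : ℕ} {d : ι → ℕ} :
    (∀ i, b ≡ b0 [MOD d i]) ↔ b ≡ b0 [MOD Finset.univ.lcm d] := by
  constructor
  · intro h
    rw [Nat.modEq_iff_dvd]
    have h1 : ∀ i, ((d i : ℕ) : ℤ) ∣ (b0 : ℤ) - b := fun i => (Nat.modEq_iff_dvd).1 (h i)
    have h2 : Finset.univ.lcm d ∣ ((b0 : ℤ) - b).natAbs := by
      refine Finset.lcm_dvd fun i _ => ?_
      exact Int.natCast_dvd.1 (h1 i)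
    exact Int.natCast_dvd.2 h2
  · intro h i
    exact h.of_dvd (Finset.dvd_lcm (mem_univ i))

/-- a common prime factor of two forms divides the determinant of the forms -/
private theorem CoC_dist {p a0 c0 a c b : ℕ} (h0 : p ∣ a0 * b + c0) (h1 : p ∣ a * b + c) :
    p ∣ Nat.dist (a0 * c) (a * c0) := by
  have e0 : (p : ℤ) ∣ (a0 : ℤ) * b + c0 := by exact_mod_cast h0
  have e1 : (p : ℤ) ∣ (a : ℤ) * b + c := by exact_mod_cast h1
  have e2 : (p : ℤ) ∣ ((a0 * c : ℕ) : ℤ) - ((a * c0 : ℕ) : ℤ) := by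
    have h2 : ((a0 * c : ℕ) : ℤ) - ((a * c0 : ℕ) : ℤ)
        = (a0 : ℤ) * ((a : ℤ) * b + c) - (a : ℤ) * ((a0 : ℤ) * b + c0) := by
      push_cast
      ring
    rw [h2]
    exact dvd_sub (Dvd.dvd.mul_left e1 _) (Dvd.dvd.mul_left e0 _)
  rcases le_total (a0 * c) (a * c0) with h | h
  · rw [Nat.dist_eq_sub_of_le h]
    have e3 : (p : ℤ) ∣ ((a * c0 - a0 * c : ℕ) : ℤ) := by
      rw [Nat.cast_sub h]
      have e4 : ((a * c0 : ℕ) : ℤ) - ((a0 * c : ℕ) : ℤ) = -(((a0 * c : ℕ) : ℤ) - ((a * c0 : ℕ) : ℤ)) := by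
        ring
      rw [e4]
      exact (dvd_neg).2 e2
    exact_mod_cast e3
  · rw [Nat.dist_eq_sub_of_le_right h]
    have e3 : (p : ℤ) ∣ ((a0 * c - a * c0 : ℕ) : ℤ) := by
      rw [Nat.cast_sub h]
      exact e2
    exact_mod_cast e3

theorem tCoC (h1 : RhCStmt) : CoCStmt := by
  classical
  intro ι _ V R a0 c0 a c d 𝒷 err ha0 ha hdist hd herr hE
  by_cases h : ∃ b0 : ℕ, ∀ i, d i ∣ a i * b0 + c i
  · obtain ⟨b0, hb0⟩ := h
    rw [h1 ι V R a0 c0 a c d ha0 ha hdist hd, if_pos ⟨b0, hb0⟩]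
    have hiff : ∀ b, (∀ i, d i ∣ a i * b + c i) ↔ b ≡ b0 [MOD Finset.univ.lcm d] := by
      intro b
      rw [← CoC_lcm]
      exact forall_congr' fun i => CoC_mod (ha i) (hd i) (hb0 i)
    have hDQ : Finset.univ.lcm d ∣ PqV V R := Finset.lcm_dvd fun i _ => hd i
    have hcop : (a0 * b0 + c0).Coprime (Finset.univ.lcm d) := by
      rw [Nat.coprime_iff_gcd_eq_one]
      by_contra hcon
      obtain ⟨p, hp, hpg⟩ := Nat.exists_prime_and_dvd hcon
      have h2 : p ∣ a0 * b0 + c0 := hpg.trans (Nat.gcd_dvd_left _ _)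
      have h3 : p ∣ Finset.univ.lcm d := hpg.trans (Nat.gcd_dvd_right _ _)
      have hpQ : p ∈ QsV V R := (prime_dvd_PqV hp).1 (h3.trans hDQ)
      have h4 : ∃ i, p ∣ d i := by
        by_contra hno
        push Not at hno
        have h5 : Finset.univ.lcm d ∣ ∏ i, d i :=
          Finset.lcm_dvd fun i hi => Finset.dvd_prod_of_mem d hi
        obtain ⟨i, _, hi⟩ := (Prime.dvd_finsetProd_iff hp.prime _).1 (h3.trans h5)
        exact hno i hi
      obtain ⟨i, hi⟩ := h4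
      exact hdist i p hpQ (CoC_dist h2 (hi.trans (hb0 i)))
    have h6 := hE _ b0 hDQ hcop
    have h7 : 𝒷.filter (fun b => ∀ i, d i ∣ a i * b + c i) =
        𝒷.filter (fun b => b ≡ b0 [MOD Finset.univ.lcm d]) := by
      refine Finset.filter_congr fun b _ => hiff b
    rw [h7, mul_one_div]
    exact h6
  · rw [h1 ι V R a0 c0 a c d ha0 ha hdist hd, if_neg h, mul_zero, sub_zero]
    push Not at h
    have e1 : 𝒷.filter (fun b => ∀ i, d i ∣ a i * b + c i) = ∅ := by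
      refine Finset.filter_eq_empty_iff.2 fun b _ hb => ?_
      obtain ⟨i, hi⟩ := h b
      exact hi (hb i)
    rw [e1, card_empty, Nat.cast_zero, abs_zero]
    exact herr _

end Pool.Agent.Lib.BE
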