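import Pool.Agent.Lib.BE.SpecA
import Pool.Agent.Lib.MP_9f2731_nt.GP.Rom.Spec

/-!
PROJECT BE, module ErC: the error terms of the mean values over the primes `a0 b + c0`, from the
Bombieri-Vinogradov hypothesis (port of CG/Ma/ErB.lean).
-/

namespace Pool.Agent.Lib.BE

open Finset
open Pool.Agent.Lib.MP_9f2731_nt.GP
open Pool.Agent.Lib.MP_9f2731_nt.GP.Sv
open Pool.Agent.Lib.MP_9f2731_nt.QL
open Pool.Agent.Lib.MP_9f2731_nt.QL.Sw
open Pool.Agent.Lib.MP_9f2731_nt.CG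
open Pool.Agent.Lib.MP_9f2731_nt.CG.Ma

/-! ### Arithmetic functions -/

private theorem ErC_tau {D : ℕ} (hD : Squarefree D) :
    (D.divisors.card : ℝ) ≤ 2 ^ Rom.om D := by
  have hD0 : D ≠ 0 := hD.ne_zero
  have h : D.divisors.card ≤ 2 ^ Rom.om D := by
    rw [Nat.card_divisors hD0]
    unfold Rom.om
    rw [← Finset.prod_const]
    refine Finset.prod_le_prod' fun p _ => ?_
    have := hD.natFactorization_le_one p
    omega
  exact_mod_cast h

private theorem ErC_phi {D : ℕ} : (D : ℝ) ≤ 2 ^ Rom.om D * (D.totient : ℝ) := by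
  have h := Nat.totient_eq_mul_prod_factors D
  have h2 : ((D.totient : ℕ) : ℝ) = D * ∏ p ∈ D.primeFactors, (1 - (p : ℝ)⁻¹) := by
    have h7 := congrArg (fun t : ℚ => (t : ℝ)) h
    push_cast at h7
    exact h7
  rw [h2]
  have h3 : (1 / 2 : ℝ) ^ Rom.om D ≤ ∏ p ∈ D.primeFactors, (1 - (p : ℝ)⁻¹) := by
    unfold Rom.om
    rw [← Finset.prod_const]
    refine Finset.prod_le_prod (fun _ _ => by norm_num) fun p hp => ?_
    have h4 : (2 : ℝ) ≤ p := by exact_mod_cast (Nat.prime_of_mem_primeFactors hp).two_le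
    have h5 : (p : ℝ)⁻¹ ≤ 2⁻¹ := inv_anti₀ (by norm_num) h4
    linarith
  have h6 : (D : ℝ) = 2 ^ Rom.om D * (D * (1 / 2) ^ Rom.om D) := by
    rw [one_div, inv_pow]
    field_simp
  calc (D : ℝ) = 2 ^ Rom.om D * (D * (1 / 2) ^ Rom.om D) := h6
    _ ≤ _ := by gcongr

private theorem ErC_sum (h1 : Rom.ExpStmt) (V : ℕ) (z C : ℝ) (hC : 0 ≤ C) :
    ∑ D ∈ (PqV V z).divisors, C ^ Rom.om D / (D : ℝ) ≤
      ∏ p ∈ (Ioc 0 ⌊z⌋₊).filter Nat.Prime, (1 + C / (p : ℝ)) := by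
  rw [h1.2 C 0 ⌊z⌋₊]
  refine Finset.sum_le_sum_of_subset_of_nonneg (Nat.divisors_subset_of_dvd ?_ ?_)
    fun D _ _ => by positivity
  · unfold Rom.PZ
    exact Finset.prod_ne_zero_iff.2 fun p hp => (mem_filter.1 hp).2.ne_zero
  · unfold PqV Rom.PZ
    refine Finset.prod_dvd_prod_of_subset _ _ _ fun p hp => ?_
    obtain ⟨hp1, -, hp3⟩ := mem_QsV.1 hp
    rw [mem_filter, mem_Ioc]
    exact ⟨⟨hp1.pos, hp3⟩, hp1⟩

/-! ### Counting -/

private theorem ErC_cnt (X D b1 : ℕ) :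
    (((Icc 1 X).filter (fun b => b ≡ b1 [MOD D])).card : ℝ) ≤ X / D + 1 := by
  have h : ((Icc 1 X).filter (fun b => b ≡ b1 [MOD D])).card ≤ (range (X / D + 1)).card := by
    refine Finset.card_le_card_of_injOn (fun b => b / D) (fun b hb => ?_) fun b hb b' hb' h => ?_
    · have h2 := (mem_filter.1 (Finset.mem_coe.1 hb)).1
      rw [mem_Icc] at h2
      rw [Finset.mem_coe, mem_range]
      exact Nat.lt_succ_of_le (Nat.div_le_div_right h2.2)
    · have h2 := (mem_filter.1 (Finset.mem_coe.1 hb)).2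
      have h3 := (mem_filter.1 (Finset.mem_coe.1 hb')).2
      have h4 : b % D = b' % D := h2.trans h3.symm
      have h5 : b / D = b' / D := h
      rw [← Nat.div_add_mod b D, ← Nat.div_add_mod b' D, h4, h5]
  rw [card_range] at h
  have h2 : ((X / D : ℕ) : ℝ) ≤ (X : ℝ) / D := Nat.cast_div_le
  have h3 : (((Icc 1 X).filter (fun b => b ≡ b1 [MOD D])).card : ℝ) ≤ ((X / D + 1 : ℕ) : ℝ) := by
    exact_mod_cast h
  push_cast at h3
  linarith

private theorem ErC_cancel {a0 c0 D b b1 : ℕ} (hco : a0.Coprime D) :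
    a0 * b + c0 ≡ a0 * b1 + c0 [MOD D] ↔ b ≡ b1 [MOD D] := by
  constructor
  · intro h
    exact Nat.ModEq.cancel_left_of_coprime hco.symm (Nat.ModEq.add_right_cancel' c0 h)
  · intro h
    exact (h.mul_left a0).add_right c0

private theorem ErC_npa (X a0 c0 D a : ℕ) (hco : a0.Coprime D) :
    npaC X a0 c0 D a ≤ X / D + 1 := by
  unfold npaC
  rcases ((Icc 1 X).filter
    (fun b => (a0 * b + c0).Prime ∧ a0 * b + c0 ≡ a [MOD D])).eq_empty_or_nonempty with h | ⟨b1, hb1⟩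
  · rw [h, card_empty, Nat.cast_zero]
    positivity
  · refine le_trans ?_ (ErC_cnt X D b1)
    refine Nat.cast_le.2 (card_le_card fun b hb => ?_)
    rw [mem_filter] at hb hb1 ⊢
    exact ⟨hb.1, (ErC_cancel hco).1 (hb.2.2.trans hb1.2.2.symm)⟩

private theorem ErC_max (X a0 c0 D : ℕ) : ∃ a : ℕ, a.Coprime D ∧ ∀ a' : ℕ, a'.Coprime D →
    |npaC X a0 c0 D a' - npqC X a0 c0 / (D.totient : ℝ)| ≤
      |npaC X a0 c0 D a - npqC X a0 c0 / (D.totient : ℝ)| := by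
  rcases Nat.eq_zero_or_pos D with rfl | hD
  · refine ⟨1, Nat.coprime_one_left 0, fun a' ha' => ?_⟩
    rw [Nat.coprime_zero_right] at ha'
    rw [ha']
  · have hmod : ∀ a' : ℕ, a'.Coprime D → a' % D ∈ (range D).filter (fun a => a.Coprime D) := by
      intro a' ha'
      rw [mem_filter, mem_range]
      refine ⟨Nat.mod_lt _ hD, ?_⟩
      have := (Nat.mod_modEq a' D).gcd_eq
      unfold Nat.Coprime at ha' ⊢
      omega
    obtain ⟨a, ha, hmax⟩ := exists_max_image ((range D).filter (fun a => a.Coprime D))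
      (fun a => |npaC X a0 c0 D a - npqC X a0 c0 / (D.totient : ℝ)|) ⟨1 % D, hmod 1 (Nat.coprime_one_left D)⟩
    refine ⟨a, (mem_filter.1 ha).2, fun a' ha' => ?_⟩
    have h1 : npaC X a0 c0 D a' = npaC X a0 c0 D (a' % D) := by
      unfold npaC
      refine congrArg (fun t : ℕ => (t : ℝ)) (congrArg Finset.card
        (Finset.filter_congr fun b _ => ?_))
      unfold Nat.ModEq
      rw [Nat.mod_mod]
    rw [h1]
    exact hmax _ (hmod a' ha')

private theorem ErC_cut (X : ℕ) (z : ℝ) (hz : 0 ≤ z) (Q : ℕ → Prop) [DecidablePred Q]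
    (S : Finset ℕ) (hS : ∀ b, b ∈ S ↔ b ∈ Icc 1 X ∧ z < b ∧ Q b) :
    (S.card : ℝ) ≤ (((Icc 1 X).filter Q).card : ℝ) ∧
      (((Icc 1 X).filter Q).card : ℝ) ≤ S.card + z := by
  constructor
  · refine Nat.cast_le.2 (card_le_card fun b hb => ?_)
    obtain ⟨h1, h2, h3⟩ := (hS b).1 hb
    exact mem_filter.2 ⟨h1, h3⟩
  · have h : ((Icc 1 X).filter Q).card ≤ S.card + (Icc 1 ⌊z⌋₊).card := by
      refine (card_le_card fun b hb => ?_).trans (card_union_le S (Icc 1 ⌊z⌋₊))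
      rw [mem_filter] at hb
      rw [mem_union]
      by_cases hbz : z < b
      · exact Or.inl ((hS b).2 ⟨hb.1, hbz, hb.2⟩)
      · refine Or.inr (mem_Icc.2 ⟨(mem_Icc.1 hb.1).1, Nat.le_floor (not_lt.1 hbz)⟩)
    rw [Nat.card_Icc, Nat.add_sub_cancel] at h
    have h2 : ((⌊z⌋₊ : ℕ) : ℝ) ≤ z := Nat.floor_le hz
    have h3 : (((Icc 1 X).filter Q).card : ℝ) ≤ ((S.card + ⌊z⌋₊ : ℕ) : ℝ) := by exact_mod_cast h
    push_cast at h3
    linarith

/-! ### Growth -/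

private theorem ErC_poly (C K : ℝ) (hC : 0 ≤ C) (hK : 0 ≤ K) :
    ∃ L0 : ℝ, ∀ L : ℝ, L0 ≤ L → K * (1 + L) ^ C ≤ Real.exp (L ^ ((1 : ℝ) / 200) / 8) := by
  have h1 := tendsto_rpow_mul_exp_neg_mul_atTop_nhds_zero (200 * C) (1 / 8) (by norm_num)
  have h2 : Filter.Tendsto (fun L : ℝ => L ^ ((1 : ℝ) / 200)) Filter.atTop Filter.atTop :=
    tendsto_rpow_atTop (by norm_num)
  have h3 := h1.comp h2
  have hc : 0 < 1 / (K * 2 ^ C + 1) := by positivity
  have h4 := h3.eventually (gt_mem_nhds hc)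
  obtain ⟨L1, hL1⟩ := Filter.eventually_atTop.1 h4
  refine ⟨max 1 L1, fun L hL => ?_⟩
  have hL0 : 1 ≤ L := (le_max_left _ _).trans hL
  have h5 := hL1 L ((le_max_right _ _).trans hL)
  simp only [Function.comp_apply] at h5
  obtain ⟨E, hE⟩ : ∃ E, E = L ^ ((1 : ℝ) / 200) := ⟨_, rfl⟩
  rw [← hE] at h5 ⊢
  have h6 : E ^ (200 * C) = L ^ C := by
    rw [hE, ← Real.rpow_mul (by linarith)]
    congr 1
    ring
  rw [h6] at h5
  have h7 : (1 + L) ^ C ≤ 2 ^ C * L ^ C := by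
    rw [← Real.mul_rpow (by norm_num) (by linarith)]
    exact Real.rpow_le_rpow (by linarith) (by linarith) hC
  have h8 : Real.exp (-(1 / 8) * E) = (Real.exp (E / 8))⁻¹ := by
    rw [← Real.exp_neg]
    congr 1
    ring
  rw [h8] at h5
  have hexp : 0 < Real.exp (E / 8) := Real.exp_pos _
  have h9 : L ^ C * (K * 2 ^ C + 1) ≤ Real.exp (E / 8) := by
    have h10 := h5.le
    rw [← div_eq_mul_inv, div_le_div_iff₀ hexp (by positivity), one_mul] at h10
    exact h10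
  have hLC : 0 ≤ L ^ C := Real.rpow_nonneg (by linarith) _
  calc K * (1 + L) ^ C ≤ K * (2 ^ C * L ^ C) := mul_le_mul_of_nonneg_left h7 hK
    _ ≤ L ^ C * (K * 2 ^ C + 1) := by nlinarith
    _ ≤ _ := h9

private theorem ErC_asym (C B : ℝ) (hC : 0 ≤ C) (hB : 0 ≤ B) :
    ∃ L0 : ℝ, ∀ L : ℝ, L0 ≤ L → 5 ≤ L ∧
      3 / 2 * (Real.exp (-(L ^ ((1 : ℝ) / 200) / 2)) * (B * (1 + L) ^ C)) +
        Real.exp (-(L ^ ((1 : ℝ) / 200) / 2)) / 2 +
        Real.exp (-(2 / 5 * L)) * (B * (1 + L) ^ C) ≤ Real.exp (-L ^ ((1 : ℝ) / 300)) := by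
  obtain ⟨L1, hL1⟩ := ErC_poly C (2 * B) hC (by positivity)
  have t1 : Filter.Tendsto (fun L : ℝ => L ^ ((1 : ℝ) / 200)) Filter.atTop Filter.atTop :=
    tendsto_rpow_atTop (by norm_num)
  have t2 : Filter.Tendsto (fun L : ℝ => L ^ ((1 : ℝ) / 600)) Filter.atTop Filter.atTop :=
    tendsto_rpow_atTop (by norm_num)
  have t3 : Filter.Tendsto (fun L : ℝ => L ^ ((199 : ℝ) / 200)) Filter.atTop Filter.atTop :=
    tendsto_rpow_atTop (by norm_num)
  obtain ⟨L2, hL2⟩ := Filter.eventually_atTop.1 (t1.eventually_ge_atTop 8)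
  obtain ⟨L3, hL3⟩ := Filter.eventually_atTop.1 (t2.eventually_ge_atTop 4)
  obtain ⟨L4, hL4⟩ := Filter.eventually_atTop.1 (t3.eventually_ge_atTop (5 / 2))
  refine ⟨max 5 (max L1 (max L2 (max L3 L4))), fun L hL => ?_⟩
  rw [max_le_iff, max_le_iff, max_le_iff, max_le_iff] at hL
  obtain ⟨h5, g1, g2, g3, g4⟩ := hL
  have a1 := hL1 L g1
  have a2 := hL2 L g2
  have a3 := hL3 L g3
  have a4 := hL4 L g4
  have hL0 : 0 < L := by linarith
  refine ⟨h5, ?_⟩
  have e1 : L ^ ((1 : ℝ) / 200) = L ^ ((1 : ℝ) / 300) * L ^ ((1 : ℝ) / 600) := by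
    rw [← Real.rpow_add hL0]
    norm_num
  have e2 : L = L ^ ((1 : ℝ) / 200) * L ^ ((199 : ℝ) / 200) := by
    rw [← Real.rpow_add hL0]
    norm_num
  have p3 : 0 < L ^ ((1 : ℝ) / 300) := Real.rpow_pos_of_pos hL0 _
  obtain ⟨E, hE⟩ : ∃ E, E = L ^ ((1 : ℝ) / 200) := ⟨_, rfl⟩
  rw [← hE] at a1 a2 e1 e2 ⊢
  have b1 : L ^ ((1 : ℝ) / 300) ≤ E / 4 := by
    rw [e1]
    nlinarith
  have b2 : E ≤ 2 / 5 * L := by
    have : E * (5 / 2) ≤ L := by
      calc E * (5 / 2) ≤ E * L ^ ((199 : ℝ) / 200) :=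
            mul_le_mul_of_nonneg_left a4 (by linarith)
        _ = L := e2.symm
    linarith
  obtain ⟨S, hS⟩ : ∃ S, S = B * (1 + L) ^ C := ⟨_, rfl⟩
  have hS0 : 0 ≤ S := by rw [hS]; positivity
  have hS1 : S ≤ Real.exp (E / 8) / 2 := by
    rw [hS]
    linarith
  rw [← hS]
  have x1 : Real.exp (-(E / 2)) * Real.exp (E / 8) = Real.exp (-(3 * E / 8)) := by
    rw [← Real.exp_add]
    congr 1
    ring
  have x2 : Real.exp (-(E / 2)) ≤ Real.exp (-(3 * E / 8)) := Real.exp_le_exp.2 (by linarith)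
  have x3 : Real.exp (-(2 / 5 * L)) * Real.exp (E / 8) ≤ Real.exp (-(3 * E / 8)) := by
    rw [← Real.exp_add]
    exact Real.exp_le_exp.2 (by linarith)
  have x4 : 2 * Real.exp (-(3 * E / 8)) ≤ Real.exp (-(E / 4)) := by
    have y1 : Real.exp (-(E / 4)) = Real.exp (E / 8) * Real.exp (-(3 * E / 8)) := by
      rw [← Real.exp_add]
      congr 1
      ring
    rw [y1]
    refine mul_le_mul_of_nonneg_right ?_ (Real.exp_pos _).le
    have := Real.add_one_le_exp (E / 8)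
    linarith
  have x5 : Real.exp (-(E / 4)) ≤ Real.exp (-L ^ ((1 : ℝ) / 300)) :=
    Real.exp_le_exp.2 (by linarith)
  have y1 : Real.exp (-(E / 2)) * S ≤ Real.exp (-(3 * E / 8)) / 2 := by
    have := mul_le_mul_of_nonneg_left hS1 (Real.exp_pos (-(E / 2))).le
    linarith
  have y2 : Real.exp (-(2 / 5 * L)) * S ≤ Real.exp (-(3 * E / 8)) / 2 := by
    have := mul_le_mul_of_nonneg_left hS1 (Real.exp_pos (-(2 / 5 * L))).le
    linarith
  have y3 : 0 < Real.exp (-(3 * E / 8)) := Real.exp_pos _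
  linarith

/-! ### The theorem -/

theorem tErC (h1 : Rom.ExpStmt) (h2 : Rom.TotStmt) : ErCStmt := by
  intro n
  obtain ⟨C, hC⟩ : ∃ C : ℝ, C = 2 * 4 ^ n := ⟨_, rfl⟩
  have hC0 : 0 < C := by rw [hC]; positivity
  obtain ⟨B, hB, hTot⟩ := h2 C hC0
  obtain ⟨L0, hL0⟩ := ErC_asym C B hC0.le hB.le
  refine ⟨Real.exp (max 1 L0), fun X p0 a0 c0 V hX hBv ha0 hp0 hVa => ?_⟩
  have hXp : (0 : ℝ) < X := lt_of_lt_of_le (Real.exp_pos _) hX
  obtain ⟨L, hLe⟩ : ∃ L, L = Real.log X := ⟨_, rfl⟩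
  have hLL : max 1 L0 ≤ L := by rw [hLe]; exact (Real.le_log_iff_exp_le hXp).2 hX
  obtain ⟨hL5, hfin⟩ := hL0 L ((le_max_right _ _).trans hLL)
  have hXexp : (X : ℝ) = Real.exp L := by rw [hLe, Real.exp_log hXp]
  have hX1 : (1 : ℝ) ≤ X := by
    rw [hXexp]
    exact Real.one_le_exp (by linarith)
  obtain ⟨z, hz⟩ : ∃ z : ℝ, z = (X : ℝ) ^ ((1 : ℝ) / 5) := ⟨_, rfl⟩
  obtain ⟨Y, hY⟩ : ∃ Y : ℝ, Y = (X : ℝ) ^ ((2 : ℝ) / 5) := ⟨_, rfl⟩
  rw [← hz, ← hY]
  have hz0 : 0 < z := by rw [hz]; positivity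
  have hY0 : 0 < Y := by rw [hY]; positivity
  have hz2 : 2 ≤ z := by
    rw [hz, Real.rpow_def_of_pos hXp, ← hLe]
    have := Real.add_one_le_exp (L * (1 / 5))
    linarith
  have hzL : Real.log z = 1 / 5 * L := by
    rw [hz, Real.log_rpow hXp, ← hLe]
  have hYX : Y ≤ X := by
    rw [hY]
    exact Real.rpow_le_self_of_one_le hX1 (by norm_num)
  have hzY : z * Y = X * Real.exp (-(2 / 5 * L)) := by
    rw [hz, hY, ← Real.rpow_add hXp, hXexp, ← Real.exp_mul, ← Real.exp_add]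
    congr 1
    ring
  choose a ha hamax using fun D => ErC_max X a0 c0 D
  obtain ⟨δ, hδ⟩ : ∃ δ : ℕ → ℝ, δ = fun D => |npaC X a0 c0 D (a D) - npqC X a0 c0 / (D.totient : ℝ)| :=
    ⟨_, rfl⟩
  have hδ0 : ∀ D, 0 ≤ δ D := fun D => by rw [hδ]; exact abs_nonneg _
  -- divisors of the product
  have hdiv : ∀ D : ℕ, D ∣ PqV V z → Squarefree D ∧ D ≠ 0 ∧ a0.Coprime D ∧ D.Coprime (a0 * p0) := by
    intro D hD
    have hD0 : D ≠ 0 := fun h => PqV_ne (zero_dvd_iff.1 (h ▸ hD))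
    have hpr : ∀ p : ℕ, p.Prime → p ∣ D → ¬ p ∣ V := fun p hp hpD =>
      (mem_QsV.1 ((prime_dvd_PqV hp).1 (hpD.trans hD))).2.1
    have hc1 : a0.Coprime D := by
      rw [Nat.coprime_iff_gcd_eq_one]
      by_contra hcon
      obtain ⟨p, hp, hpg⟩ := Nat.exists_prime_and_dvd hcon
      exact hVa p hp (hpr p hp (hpg.trans (Nat.gcd_dvd_right _ _))) (hpg.trans (Nat.gcd_dvd_left _ _))
    have hc2 : p0.Coprime D := by
      rw [Nat.coprime_iff_gcd_eq_one]
      by_contra hcon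
      obtain ⟨p, hp, hpg⟩ := Nat.exists_prime_and_dvd hcon
      exact hpr p hp (hpg.trans (Nat.gcd_dvd_right _ _)) ((hpg.trans (Nat.gcd_dvd_left _ _)).trans hp0)
    exact ⟨PqV_squarefree.squarefree_of_dvd hD, hD0, hc1, (hc1.mul_left hc2).symm⟩
  refine ⟨fun D => δ D + z, fun D => add_nonneg (hδ0 D) hz0.le, ?_, ?_⟩
  · -- the class b0
    intro D b0 hD hco
    obtain ⟨-, hD0, hc1, -⟩ := hdiv D hD
    have hφ : (1 : ℝ) ≤ D.totient := by
      exact_mod_cast Nat.totient_pos.2 (Nat.pos_of_ne_zero hD0)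
    have hφ0 : (0 : ℝ) < D.totient := by linarith
    obtain ⟨s1, s2⟩ := ErC_cut X z hz0.le (fun b => (a0 * b + c0).Prime ∧
      a0 * b + c0 ≡ a0 * b0 + c0 [MOD D])
      (((Icc 1 X).filter (fun b : ℕ => z < b ∧ (a0 * b + c0).Prime)).filter
        (fun b => b ≡ b0 [MOD D])) (by
        intro b
        rw [mem_filter, mem_filter, ErC_cancel hc1]
        tauto)
    obtain ⟨s3, s4⟩ := ErC_cut X z hz0.le (fun b => (a0 * b + c0).Prime)
      ((Icc 1 X).filter (fun b : ℕ => z < b ∧ (a0 * b + c0).Prime)) (by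
        intro b
        rw [mem_filter])
    have k1 := hamax D (a0 * b0 + c0) hco
    have k2 : |npaC X a0 c0 D (a D) - npqC X a0 c0 / (D.totient : ℝ)| = δ D := by rw [hδ]
    rw [k2] at k1
    unfold npaC npqC at k1
    obtain ⟨S1, hS1⟩ : ∃ S1 : ℝ, S1 = (((((Icc 1 X).filter
      (fun b : ℕ => z < b ∧ (a0 * b + c0).Prime)).filter (fun b => b ≡ b0 [MOD D])).card : ℕ) : ℝ) :=
      ⟨_, rfl⟩
    obtain ⟨S2, hS2⟩ : ∃ S2 : ℝ, S2 = ((((Icc 1 X).filter
      (fun b : ℕ => z < b ∧ (a0 * b + c0).Prime)).card : ℕ) : ℝ) := ⟨_, rfl⟩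
    obtain ⟨F1, hF1⟩ : ∃ F1 : ℝ, F1 = ((((Icc 1 X).filter (fun b => (a0 * b + c0).Prime ∧
      a0 * b + c0 ≡ a0 * b0 + c0 [MOD D])).card : ℕ) : ℝ) := ⟨_, rfl⟩
    obtain ⟨F2, hF2⟩ : ∃ F2 : ℝ, F2 = ((((Icc 1 X).filter (fun b =>
      (a0 * b + c0).Prime)).card : ℕ) : ℝ) := ⟨_, rfl⟩
    rw [← hF1, ← hF2] at k1
    rw [← hS1, ← hF1] at s1 s2
    rw [← hS2, ← hF2] at s3 s4
    rw [← hS1, ← hS2]
    have k3 : S2 / D.totient ≤ F2 / D.totient := div_le_div_of_nonneg_right s3 hφ0.le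
    have k4 : F2 / D.totient ≤ S2 / D.totient + z := by
      have k5 : F2 / D.totient ≤ (S2 + z) / D.totient := div_le_div_of_nonneg_right s4 hφ0.le
      rw [add_div] at k5
      have k6 : z / D.totient ≤ z := div_le_self hz0.le hφ
      linarith
    rw [abs_le] at k1 ⊢
    constructor
    · linarith [k1.1]
    · linarith [k1.2]
  · -- the sum
    obtain ⟨𝒟, h𝒟⟩ : ∃ 𝒟 : Finset ℕ,
      𝒟 = (PqV V z).divisors.filter (fun D : ℕ => (D : ℝ) ≤ Y) := ⟨_, rfl⟩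
    rw [← h𝒟]
    have hmem : ∀ D ∈ 𝒟, D ∣ PqV V z ∧ (D : ℝ) ≤ Y := by
      intro D hD
      rw [h𝒟, mem_filter, Nat.mem_divisors] at hD
      exact ⟨hD.1.1, hD.2⟩
    obtain ⟨W, hW⟩ : ∃ W : ℕ → ℝ, W = fun D => C ^ Rom.om D / (D : ℝ) := ⟨_, rfl⟩
    obtain ⟨S, hS⟩ : ∃ S, S = B * (1 + L) ^ C := ⟨_, rfl⟩
    have hS0 : 0 ≤ S := by rw [hS]; positivity
    have hWS : ∑ D ∈ 𝒟, W D ≤ S := by
      have q1 : ∑ D ∈ 𝒟, W D ≤ ∑ D ∈ (PqV V z).divisors, W D := by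
        rw [h𝒟]
        refine Finset.sum_le_sum_of_subset_of_nonneg (filter_subset _ _) fun D _ _ => ?_
        rw [hW]
        positivity
      have q2 := ErC_sum h1 V z C hC0.le
      have q3 := hTot 0 ⌊z⌋₊ (Nat.le_floor (by exact_mod_cast hz2))
      have q4 : Real.log (⌊z⌋₊ : ℝ) ≤ L := by
        have q5 : Real.log (⌊z⌋₊ : ℝ) ≤ Real.log z := by
          refine Real.log_le_log ?_ (Nat.floor_le hz0.le)
          exact_mod_cast (Nat.le_floor (by exact_mod_cast hz2 : ((2 : ℕ) : ℝ) ≤ z) : 2 ≤ ⌊z⌋₊).trans_lt' (by norm_num)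
        rw [hzL] at q5
        linarith
      have q6 : (1 + Real.log (⌊z⌋₊ : ℝ)) ^ C ≤ (1 + L) ^ C := by
        refine Real.rpow_le_rpow ?_ (by linarith) hC0.le
        have := Real.log_natCast_nonneg ⌊z⌋₊
        linarith
      rw [hW] at q1 ⊢
      rw [hS]
      exact (q1.trans (q2.trans q3)).trans (mul_le_mul_of_nonneg_left q6 hB.le)
    -- Bombieri-Vinogradov
    have hBV : ∑ D ∈ 𝒟, δ D ≤ X * Real.exp (-(L ^ ((1 : ℝ) / 200))) := by
      have q1 := hBv.2 a ha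
      rw [← hLe] at q1
      refine le_trans ?_ q1
      have q2 : 𝒟 ⊆ (Icc 1 ⌊(X : ℝ) ^ ((9 : ℝ) / 20)⌋₊).filter (fun d => d.Coprime (a0 * p0)) := by
        intro D hD
        obtain ⟨hD1, hD2⟩ := hmem D hD
        obtain ⟨-, hD0, -, hc⟩ := hdiv D hD1
        rw [mem_filter, mem_Icc]
        refine ⟨⟨Nat.pos_of_ne_zero hD0, Nat.le_floor (hD2.trans ?_)⟩, hc⟩
        rw [hY]
        exact Real.rpow_le_rpow_of_exponent_le hX1 (by norm_num)
      refine le_trans (le_of_eq ?_) (Finset.sum_le_sum_of_subset_of_nonneg q2 fun D _ _ => abs_nonneg _)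
      rw [hδ]
    -- pointwise bounds
    obtain ⟨ε, hε⟩ : ∃ ε, ε = Real.exp (-(L ^ ((1 : ℝ) / 200) / 2)) := ⟨_, rfl⟩
    have hε0 : 0 < ε := by rw [hε]; exact Real.exp_pos _
    have hε2 : Real.exp (-(L ^ ((1 : ℝ) / 200))) = ε ^ 2 := by
      rw [hε, ← Real.exp_nat_mul]
      congr 1
      push_cast
      ring
    have hpt : ∀ D ∈ 𝒟, (D.divisors.card : ℝ) ^ n * (δ D + z) ≤
        (3 / 2 * (ε * X) + z * Y) * W D + 1 / (2 * ε) * δ D := by
      intro D hD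
      obtain ⟨hD1, hD2⟩ := hmem D hD
      obtain ⟨hsq, hD0, hc1, -⟩ := hdiv D hD1
      have hDp : (0 : ℝ) < D := by exact_mod_cast Nat.pos_of_ne_zero hD0
      have hφ0 : (0 : ℝ) < D.totient := by
        exact_mod_cast Nat.totient_pos.2 (Nat.pos_of_ne_zero hD0)
      obtain ⟨τ, hτ⟩ : ∃ τ : ℝ, τ = (D.divisors.card : ℝ) ^ n := ⟨_, rfl⟩
      obtain ⟨o, ho⟩ : ∃ o : ℕ, o = Rom.om D := ⟨_, rfl⟩
      have hτ0 : 0 ≤ τ := by rw [hτ]; exact pow_nonneg (Nat.cast_nonneg _) n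
      have hτ1 : τ ≤ (2 ^ o) ^ n := by
        rw [hτ, ho]
        exact pow_le_pow_left₀ (Nat.cast_nonneg _) (ErC_tau hsq) n
      have hτ2 : τ ^ 2 ≤ (4 ^ n) ^ o := by
        refine (pow_le_pow_left₀ hτ0 hτ1 2).trans (le_of_eq ?_)
        rw [show (4 : ℝ) = 2 ^ 2 by norm_num, ← pow_mul, ← pow_mul, ← pow_mul, ← pow_mul]
        congr 1
        ring
      have hWD : W D = 2 ^ o * (4 ^ n) ^ o / D := by
        rw [hW, hC, ho]
        show (2 * 4 ^ n : ℝ) ^ Rom.om D / (D : ℝ) = _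
        rw [mul_pow]
      have hinvφ : 1 / (D.totient : ℝ) ≤ 2 ^ o / D := by
        rw [div_le_div_iff₀ hφ0 hDp, one_mul, ho]
        exact ErC_phi
      -- trivial bound for δ
      have t1 : δ D ≤ 3 * X / D.totient := by
        have u1 := ErC_npa X a0 c0 D (a D) hc1
        have u2 : 0 ≤ npaC X a0 c0 D (a D) := Nat.cast_nonneg _
        have u3 : 0 ≤ npqC X a0 c0 := Nat.cast_nonneg _
        have u4 : npqC X a0 c0 ≤ X := by
          unfold npqC
          have := (card_filter_le (Icc 1 X) (fun b => (a0 * b + c0).Prime))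
          rw [Nat.card_Icc, Nat.add_sub_cancel] at this
          exact_mod_cast this
        have u5 : npqC X a0 c0 / D.totient ≤ X / D.totient := div_le_div_of_nonneg_right u4 hφ0.le
        have u6 : 0 ≤ npqC X a0 c0 / D.totient := by positivity
        have u7 : (X : ℝ) / D ≤ X / D.totient :=
          div_le_div_of_nonneg_left hXp.le hφ0 (by exact_mod_cast Nat.totient_le D)
        have u8 : (1 : ℝ) ≤ X / D := by
          rw [le_div_iff₀ hDp, one_mul]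
          linarith
        have u9 : 3 * (X : ℝ) / D.totient = X / D.totient + X / D.totient + X / D.totient := by ring
        rw [hδ]
        show |npaC X a0 c0 D (a D) - npqC X a0 c0 / (D.totient : ℝ)| ≤ _
        rw [u9, abs_le]
        constructor <;> linarith
      have t2 : τ ^ 2 * δ D ≤ 3 * X * W D := by
        have v1 : τ ^ 2 * δ D ≤ (4 ^ n) ^ o * (3 * X * (2 ^ o / D)) := by
          refine mul_le_mul hτ2 (t1.trans ?_) (hδ0 D) (by positivity)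
          rw [← mul_one_div]
          exact mul_le_mul_of_nonneg_left hinvφ (by positivity)
        refine v1.trans (le_of_eq ?_)
        rw [hWD]
        ring
      have t3 : τ ≤ Y * W D := by
        have v1 : τ ≤ 2 ^ o * (4 ^ n) ^ o := by
          refine hτ1.trans ?_
          have v2 : ((2 : ℝ) ^ o) ^ n = (2 ^ n) ^ o := by ring
          rw [v2]
          have v3 : ((2 : ℝ) ^ n) ^ o ≤ (4 ^ n) ^ o :=
            pow_le_pow_left₀ (by positivity) (pow_le_pow_left₀ (by norm_num) (by norm_num) n) o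
          have v4 : (1 : ℝ) ≤ 2 ^ o := one_le_pow₀ (by norm_num)
          have v5 : (0 : ℝ) < (4 ^ n) ^ o := by positivity
          nlinarith
        have v6 : Y * W D = 2 ^ o * (4 ^ n) ^ o * (Y / D) := by
          rw [hWD]
          ring
        rw [v6]
        have v7 : 1 ≤ Y / D := by
          rw [le_div_iff₀ hDp, one_mul]
          exact hD2
        exact v1.trans (le_mul_of_one_le_right (by positivity) v7)
      have t4 : τ ≤ ε / 2 * τ ^ 2 + 1 / (2 * ε) := by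
        have v1 : 0 ≤ (ε * τ - 1) ^ 2 := sq_nonneg _
        have v2 : ε / 2 * τ ^ 2 + 1 / (2 * ε) - τ = (ε * τ - 1) ^ 2 / (2 * ε) := by
          field_simp
          ring
        have v3 : 0 ≤ (ε * τ - 1) ^ 2 / (2 * ε) := by positivity
        linarith
      rw [← hτ]
      have t5 : τ * δ D ≤ ε / 2 * (τ ^ 2 * δ D) + 1 / (2 * ε) * δ D := by
        have := mul_le_mul_of_nonneg_right t4 (hδ0 D)
        calc τ * δ D ≤ (ε / 2 * τ ^ 2 + 1 / (2 * ε)) * δ D := this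
          _ = _ := by ring
      have t6 : ε / 2 * (τ ^ 2 * δ D) ≤ ε / 2 * (3 * X * W D) :=
        mul_le_mul_of_nonneg_left t2 (by positivity)
      have t7 : τ * z ≤ Y * W D * z := mul_le_mul_of_nonneg_right t3 hz0.le
      calc τ * (δ D + z) = τ * δ D + τ * z := by ring
        _ ≤ (ε / 2 * (3 * X * W D) + 1 / (2 * ε) * δ D) + Y * W D * z := by linarith
        _ = _ := by ring
    calc ∑ D ∈ 𝒟, (D.divisors.card : ℝ) ^ n * (δ D + z)
        ≤ ∑ D ∈ 𝒟, ((3 / 2 * (ε * X) + z * Y) * W D + 1 / (2 * ε) * δ D) :=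
          Finset.sum_le_sum hpt
      _ = (3 / 2 * (ε * X) + z * Y) * ∑ D ∈ 𝒟, W D + 1 / (2 * ε) * ∑ D ∈ 𝒟, δ D := by
          rw [Finset.sum_add_distrib, Finset.mul_sum, Finset.mul_sum]
      _ ≤ (3 / 2 * (ε * X) + z * Y) * S + 1 / (2 * ε) * (X * ε ^ 2) := by
          rw [hε2] at hBV
          exact add_le_add (mul_le_mul_of_nonneg_left hWS (by positivity))
            (mul_le_mul_of_nonneg_left hBV (by positivity))
      _ = X * (3 / 2 * (ε * S) + ε / 2 + Real.exp (-(2 / 5 * L)) * S) := by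
          rw [hzY]
          field_simp
          ring
      _ ≤ X * Real.exp (-(Real.log X) ^ ((1 : ℝ) / 300)) := by
          rw [← hLe]
          refine mul_le_mul_of_nonneg_left ?_ hXp.le
          rw [hε, hS]
          exact hfin

end Pool.Agent.Lib.BE
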