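import Pool.Agent.Lib.BE.SpecA

/-!
PROJECT BE, part A, module ExC: the sum over a full period as an Euler product of operators (forms a b + c).
-/

namespace Pool.Agent.Lib.BE

open Finset
open Pool.Agent.Lib.MP_9f2731_nt Pool.Agent.Lib.MP_9f2731_nt.GP Pool.Agent.Lib.MP_9f2731_nt.GP.Sv Pool.Agent.Lib.MP_9f2731_nt.QL Pool.Agent.Lib.MP_9f2731_nt.QL.Sw Pool.Agent.Lib.MP_9f2731_nt.CG Pool.Agent.Lib.MP_9f2731_nt.CG.Ma

theorem tExC (h1 : UbFStmt) (h2 : GP.Sv.S_Crt) : ExCStmt := by
  intro ι _ _ V R u f a c hu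
  have hper : ∀ p ∈ QsV V R, ∀ b : ℕ,
      (u p (b + p) • ∏ i, (1 - ind p (a i * (b + p) + c i) • mon (e i p)) : Al ι)
        = u p b • ∏ i, (1 - ind p (a i * b + c i) • mon (e i p)) := by
    intro p hp b
    rw [hu p hp b]
    congr 1
    refine Finset.prod_congr rfl fun i _ => ?_
    have hh : ind p (a i * (b + p) + c i) = ind p (a i * b + c i) := by
      unfold ind
      have : (p ∣ a i * (b + p) + c i) ↔ (p ∣ a i * b + c i) := by
        have e1 : a i * (b + p) + c i = a i * b + c i + p * a i := by ring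
        rw [e1]
        exact (Nat.dvd_add_iff_left (Dvd.intro _ rfl)).symm
      simp only [this]
    rw [hh]
  have h4 := h2 (Al ι) (QsV V R)
    (fun p b => u p b • ∏ i, (1 - ind p (a i * b + c i) • mon (e i p)))
    (fun p hp => (mem_QsV.1 hp).1) hper
  rw [← h4]
  have h3 : ∏ p ∈ QsV V R, p = PqV V R := rfl
  rw [h3, act_sum]
  refine Finset.sum_congr rfl fun b _ => ?_
  rw [Finset.prod_smul, act_smul, h1 ι V R f (fun i => a i * b + c i)]

end Pool.Agent.Lib.BE
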