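import Pool.Agent.Lib.BE.SpecA

/-!
PROJECT BE, module LoAC: the local factor of the mean over intervals, forms a b + c.
-/

set_option autoImplicit false

namespace Pool.Agent.Lib.BE

open Finset
open Pool.Agent.Lib.MP_9f2731_nt.GP Pool.Agent.Lib.MP_9f2731_nt.GP.Sv Pool.Agent.Lib.MP_9f2731_nt.QL
  Pool.Agent.Lib.MP_9f2731_nt.QL.Sw Pool.Agent.Lib.MP_9f2731_nt.CG Pool.Agent.Lib.MP_9f2731_nt.CG.Ma

/-- the form `a b + c` has exactly one zero modulo p -/
private theorem LoAC_one (a c p : ℕ) (hp : p.Prime) (ha : ¬ p ∣ a) :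
    ∃ b0 < p, ∀ b < p, (p ∣ a * b + c ↔ b = b0) := by
  have : Fact p.Prime := ⟨hp⟩
  have ha' : (a : ZMod p) ≠ 0 := by
    rw [Ne, ZMod.natCast_eq_zero_iff]
    exact ha
  have hkey : ∀ b : ℕ, p ∣ a * b + c ↔ (b : ZMod p) = -((a : ZMod p)⁻¹ * c) := by
    intro b
    rw [← ZMod.natCast_eq_zero_iff]
    push_cast
    constructor
    · intro h
      have h1 : (a : ZMod p) * b = -c := by linear_combination h
      calc (b : ZMod p) = (a : ZMod p)⁻¹ * ((a : ZMod p) * b) := by
            rw [← mul_assoc, inv_mul_cancel₀ ha', one_mul]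
        _ = _ := by rw [h1]; ring
    · intro h
      rw [h, mul_neg, ← mul_assoc, mul_inv_cancel₀ ha']
      ring
  refine ⟨(-((a : ZMod p)⁻¹ * c)).val, ZMod.val_lt _, fun b hb => ?_⟩
  rw [hkey b]
  constructor
  · intro h
    rw [← h, ZMod.val_natCast, Nat.mod_eq_of_lt hb]
  · intro h
    rw [h, ZMod.natCast_zmod_val]

private theorem LoAC_ind (p n : ℕ) : ind p n = 0 ∨ ind p n = 1 := by
  unfold ind
  split_ifs <;> simp

private theorem LoAC_pair {ι : Type} (c : ℝ) (hc : c = 0 ∨ c = 1) (X Y : Al ι) :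
    (1 - c • X) * (1 - c • Y) = 1 + c • (X * Y - X - Y) := by
  rcases hc with rfl | rfl
  · simp
  · simp only [one_smul]
    ring

/-- two different forms are not both divisible by p -/
private theorem LoAC_uniq {p a a' b c c' : ℕ} (hd : ¬ p ∣ Nat.dist (a * c') (a' * c))
    (h1 : p ∣ a * b + c) (h2 : p ∣ a' * b + c') : False := by
  apply hd
  have h3 : (p : ℤ) ∣ (a * c' : ℤ) - a' * c := by
    have e1 : (p : ℤ) ∣ (a * b + c : ℤ) := by exact_mod_cast h1
    have e2 : (p : ℤ) ∣ (a' * b + c' : ℤ) := by exact_mod_cast h2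
    have e3 : (a * c' : ℤ) - a' * c = a * (a' * b + c') - a' * (a * b + c) := by ring
    rw [e3]
    exact dvd_sub (Dvd.dvd.mul_left e2 _) (Dvd.dvd.mul_left e1 _)
  rcases le_total (a * c') (a' * c) with h | h
  · rw [Nat.dist_eq_sub_of_le h]
    have e4 : (p : ℤ) ∣ ((a' * c - a * c' : ℕ) : ℤ) := by
      rw [Nat.cast_sub h]
      push_cast
      have := (dvd_neg (α := ℤ)).2 h3
      rwa [neg_sub] at this
    exact_mod_cast e4
  · rw [Nat.dist_eq_sub_of_le_right h]
    have e4 : (p : ℤ) ∣ ((a * c' - a' * c : ℕ) : ℤ) := by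
      rw [Nat.cast_sub h]
      push_cast
      exact h3
    exact_mod_cast e4

theorem tLoAC : LoACStmt := by
  intro σ _ _ p a c hp ha hd
  have hp0 : (p : ℝ) ≠ 0 := by exact_mod_cast hp.ne_zero
  -- the product for one b
  have hb : ∀ b ∈ range p, (1 / (p : ℝ)) •
      ∏ i : σ × Bool, (1 - ind p (a i.1 * b + c i.1) • mon (e i p)) =
      (1 / (p : ℝ)) • ((1 : Al (σ × Bool)) + ∑ j : σ, ind p (a j * b + c j) • vv p j) := by
    intro b _
    congr 1
    rw [Fintype.prod_prod_type]
    have h2 : ∀ j : σ, ∏ s : Bool, ((1 : Al (σ × Bool)) -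
        ind p (a j * b + c j) • mon (e (j, s) p))
        = 1 + ind p (a j * b + c j) • vv p j := by
      intro j
      rw [Fintype.prod_bool, LoAC_pair _ (LoAC_ind _ _)]
      rfl
    have h3 : (∏ j : σ, ∏ s : Bool, ((1 : Al (σ × Bool)) -
        ind p (a (j, s).1 * b + c (j, s).1) • mon (e (j, s) p))) =
        ∏ j : σ, (1 + ind p (a j * b + c j) • vv p j) := Finset.prod_congr rfl fun j _ => h2 j
    rw [h3]
    by_cases hex : ∃ j0, p ∣ a j0 * b + c j0
    · obtain ⟨j0, hj0⟩ := hex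
      have h4 : ∀ j, j ≠ j0 → ind p (a j * b + c j) = 0 := by
        intro j hj
        unfold ind
        rw [if_neg]
        intro h5
        exact LoAC_uniq (hd j j0 hj) h5 hj0
      rw [Finset.prod_eq_single j0 (fun j _ hj => by rw [h4 j hj]; simp)
        (fun h => absurd (mem_univ _) h),
        Finset.sum_eq_single j0 (fun j _ hj => by rw [h4 j hj]; simp)
        (fun h => absurd (mem_univ _) h)]
    · push Not at hex
      have h4 : ∀ j, ind p (a j * b + c j) = 0 := by
        intro j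
        unfold ind
        rw [if_neg (hex j)]
      simp [h4]
  -- the sum over b
  have hs : ∀ j : σ, ∑ b ∈ range p, ind p (a j * b + c j) = 1 := by
    intro j
    obtain ⟨b0, hb0, hb1⟩ := LoAC_one (a j) (c j) p hp (ha j)
    have h2 : ∀ b ∈ range p, ind p (a j * b + c j) = if b = b0 then 1 else 0 := by
      intro b hb
      unfold ind
      simp only [hb1 b (mem_range.1 hb)]
    rw [Finset.sum_congr rfl h2, Finset.sum_ite_eq' (range p) b0, if_pos (mem_range.2 hb0)]
  rw [Finset.sum_congr rfl hb, ← Finset.smul_sum, Finset.sum_add_distrib, Finset.sum_comm]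
  have h2 : ∀ j : σ, ∑ b ∈ range p, ind p (a j * b + c j) • (vv p j : Al (σ × Bool)) = vv p j := by
    intro j
    rw [← Finset.sum_smul, hs j, one_smul]
  rw [Finset.sum_congr rfl fun j _ => h2 j, smul_add, Finset.sum_const, card_range]
  congr 1
  rw [← Nat.cast_smul_eq_nsmul ℝ, smul_smul, one_div, inv_mul_cancel₀ hp0, one_smul]

end Pool.Agent.Lib.BE
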