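import Pool.Agent.Lib.BE.SpecA

/-!
PROJECT BE, part A, module LoBC: the local factor of the mean over primes (forms a b + c).
-/

set_option autoImplicit false

namespace Pool.Agent.Lib.BE

open Finset
open Pool.Agent.Lib.MP_9f2731_nt.GP Pool.Agent.Lib.MP_9f2731_nt.GP.Sv
  Pool.Agent.Lib.MP_9f2731_nt.QL Pool.Agent.Lib.MP_9f2731_nt.QL.Sw
  Pool.Agent.Lib.MP_9f2731_nt.CG Pool.Agent.Lib.MP_9f2731_nt.CG.Ma

/-- the form `a b + c` has exactly one zero modulo p -/
private theorem LoBC_one (a c p : ℕ) (hp : p.Prime) (ha : ¬ p ∣ a) :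
    ∃ b0 < p, ∀ b < p, (p ∣ a * b + c ↔ b = b0) := by
  have : Fact p.Prime := ⟨hp⟩
  have ha' : (a : ZMod p) ≠ 0 := by
    rw [Ne, ZMod.natCast_eq_zero_iff]
    exact ha
  have hkey : ∀ b : ℕ, p ∣ a * b + c ↔ (b : ZMod p) = -((a : ZMod p)⁻¹ * c) := by
    intro b
    rw [← ZMod.natCast_eq_zero_iff]
    push_cast
    constructor
    · intro h
      have h1 : (a : ZMod p) * b = -c := by linear_combination h
      calc (b : ZMod p) = (a : ZMod p)⁻¹ * ((a : ZMod p) * b) := by
            rw [← mul_assoc, inv_mul_cancel₀ ha', one_mul]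
        _ = _ := by rw [h1]; ring
    · intro h
      rw [h, mul_neg, ← mul_assoc, mul_inv_cancel₀ ha']
      ring
  refine ⟨(-((a : ZMod p)⁻¹ * c)).val, ZMod.val_lt _, fun b hb => ?_⟩
  rw [hkey b]
  constructor
  · intro h
    rw [← h, ZMod.val_natCast, Nat.mod_eq_of_lt hb]
  · intro h
    rw [h, ZMod.natCast_zmod_val]

private theorem LoBC_ind (p n : ℕ) : ind p n = 0 ∨ ind p n = 1 := by
  unfold ind
  split_ifs <;> simp

private theorem LoBC_pair {ι : Type} (c : ℝ) (hc : c = 0 ∨ c = 1) (X Y : Al ι) :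
    (1 - c • X) * (1 - c • Y) = 1 + c • (X * Y - X - Y) := by
  rcases hc with rfl | rfl
  · simp
  · simp only [one_smul]
    ring

private theorem LoBC_dist {p x y : ℕ} (h : x ≡ y [MOD p]) : p ∣ Nat.dist x y := by
  rcases le_total x y with hxy | hxy
  · rw [Nat.dist_eq_sub_of_le hxy]
    exact (Nat.modEq_iff_dvd' hxy).1 h
  · rw [Nat.dist_comm, Nat.dist_eq_sub_of_le hxy]
    exact (Nat.modEq_iff_dvd' hxy).1 h.symm

/-- two different forms are not both divisible by p -/
private theorem LoBC_uniq {p a c a' c' b : ℕ} (hd : ¬ p ∣ Nat.dist (a * c') (a' * c))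
    (h1 : p ∣ a * b + c) (h2 : p ∣ a' * b + c') : False := by
  refine hd (LoBC_dist ?_)
  have h3 : a * c' + a * a' * b ≡ 0 [MOD p] := by
    rw [Nat.modEq_zero_iff_dvd]
    have h4 : a * c' + a * a' * b = a * (a' * b + c') := by ring
    rw [h4]
    exact Dvd.dvd.mul_left h2 _
  have h5 : a' * c + a * a' * b ≡ 0 [MOD p] := by
    rw [Nat.modEq_zero_iff_dvd]
    have h4 : a' * c + a * a' * b = a' * (a * b + c) := by ring
    rw [h4]
    exact Dvd.dvd.mul_left h1 _
  exact Nat.ModEq.add_right_cancel' _ (h3.trans h5.symm)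

theorem tLoBC : LoBCStmt := by
  intro σ _ _ p a0 c0 a c hp ha0 ha hd0 hd
  have hp2 : (2 : ℝ) ≤ p := by exact_mod_cast hp.two_le
  have hp1 : (p : ℝ) - 1 ≠ 0 := by linarith
  set w : ℕ → ℝ := fun b => if p ∣ a0 * b + c0 then (0 : ℝ) else 1 / ((p : ℝ) - 1) with hw
  -- the product for one b
  have hb : ∀ b ∈ range p, (if p ∣ a0 * b + c0 then (0 : ℝ) else 1 / ((p : ℝ) - 1)) •
      ∏ i : σ × Bool, (1 - ind p (a i.1 * b + c i.1) • mon (e i p)) =
      w b • (1 : Al (σ × Bool)) + ∑ j : σ, (w b * ind p (a j * b + c j)) • vv p j := by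
    intro b _
    have h0 : w b • (1 : Al (σ × Bool)) + ∑ j : σ, (w b * ind p (a j * b + c j)) • vv p j =
        w b • ((1 : Al (σ × Bool)) + ∑ j : σ, ind p (a j * b + c j) • vv p j) := by
      rw [smul_add, Finset.smul_sum]
      congr 1
      exact Finset.sum_congr rfl fun j _ => by rw [smul_smul]
    rw [h0]
    change w b • _ = _
    congr 1
    rw [Fintype.prod_prod_type]
    have h2 : ∀ j : σ, ∏ s : Bool, ((1 : Al (σ × Bool)) - ind p (a j * b + c j) • mon (e (j, s) p))
        = 1 + ind p (a j * b + c j) • vv p j := by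
      intro j
      rw [Fintype.prod_bool, LoBC_pair _ (LoBC_ind _ _)]
      rfl
    have h3 : (∏ j : σ, ∏ s : Bool, ((1 : Al (σ × Bool)) -
        ind p (a (j, s).1 * b + c (j, s).1) • mon (e (j, s) p))) =
        ∏ j : σ, (1 + ind p (a j * b + c j) • vv p j) := Finset.prod_congr rfl fun j _ => h2 j
    rw [h3]
    by_cases hex : ∃ j0, p ∣ a j0 * b + c j0
    · obtain ⟨j0, hj0⟩ := hex
      have h4 : ∀ j, j ≠ j0 → ind p (a j * b + c j) = 0 := by
        intro j hj
        unfold ind
        rw [if_neg]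
        intro h5
        exact LoBC_uniq (hd j j0 hj) h5 hj0
      rw [Finset.prod_eq_single j0 (fun j _ hj => by rw [h4 j hj]; simp)
        (fun h => absurd (mem_univ _) h),
        Finset.sum_eq_single j0 (fun j _ hj => by rw [h4 j hj]; simp)
        (fun h => absurd (mem_univ _) h)]
    · push Not at hex
      have h4 : ∀ j, ind p (a j * b + c j) = 0 := by
        intro j
        unfold ind
        rw [if_neg (hex j)]
      simp [h4]
  -- the sum of the weights
  have hs0 : ∑ b ∈ range p, w b = 1 := by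
    obtain ⟨b0, hb0, hb1⟩ := LoBC_one a0 c0 p hp ha0
    have h2 : ∀ b ∈ range p, w b = 1 / ((p : ℝ) - 1) - if b = b0 then 1 / ((p : ℝ) - 1) else 0 := by
      intro b hb
      simp only [hw, hb1 b (mem_range.1 hb)]
      split_ifs <;> ring
    rw [Finset.sum_congr rfl h2, Finset.sum_sub_distrib, Finset.sum_ite_eq' (range p) b0,
      if_pos (mem_range.2 hb0), Finset.sum_const, card_range, nsmul_eq_mul]
    field_simp
  -- the sum over b for one form
  have hs : ∀ j : σ, ∑ b ∈ range p, w b * ind p (a j * b + c j) = 1 / ((p : ℝ) - 1) := by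
    intro j
    obtain ⟨b0, hb0, hb1⟩ := LoBC_one (a j) (c j) p hp (ha j)
    have h2 : ∀ b ∈ range p, w b * ind p (a j * b + c j) =
        if b = b0 then 1 / ((p : ℝ) - 1) else 0 := by
      intro b hb
      unfold ind
      by_cases hbb : b = b0
      · have h3 : p ∣ a j * b + c j := (hb1 b (mem_range.1 hb)).2 hbb
        have h4 : ¬ p ∣ a0 * b + c0 := fun h5 => LoBC_uniq (hd0 j) h5 h3
        rw [if_pos h3, if_pos hbb, mul_one]
        simp only [hw]
        rw [if_neg h4]
      · have h3 : ¬ p ∣ a j * b + c j := fun h => hbb ((hb1 b (mem_range.1 hb)).1 h)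
        rw [if_neg h3, if_neg hbb, mul_zero]
    rw [Finset.sum_congr rfl h2, Finset.sum_ite_eq' (range p) b0, if_pos (mem_range.2 hb0)]
  rw [Finset.sum_congr rfl hb, Finset.sum_add_distrib, ← Finset.sum_smul, hs0, one_smul,
    Finset.sum_comm, Finset.smul_sum]
  congr 1
  refine Finset.sum_congr rfl fun j _ => ?_
  rw [← Finset.sum_smul, hs j]

end Pool.Agent.Lib.BE
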