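import Pool.Agent.Lib.BE.SpecA

/-!
PROJECT BE, module RhC (helper2, port of CG/Ma/RhF.lean): the weighted density of the solutions of simultaneous
divisibilities of the forms a b + c.
-/

set_option autoImplicit false

namespace Pool.Agent.Lib.BE

open Finset

open Pool.Agent.Lib.MP_9f2731_nt.GP Pool.Agent.Lib.MP_9f2731_nt.GP.Sv Pool.Agent.Lib.MP_9f2731_nt.QL Pool.Agent.Lib.MP_9f2731_nt.QL.Sw Pool.Agent.Lib.MP_9f2731_nt.CG Pool.Agent.Lib.MP_9f2731_nt.CG.Ma

/-- the solutions of one divisibility -/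
private theorem RhC_mod {a c d b b0 : ℕ} (hc : Nat.Coprime d a) (h0 : d ∣ a * b0 + c) :
    d ∣ a * b + c ↔ b ≡ b0 [MOD d] := by
  have hz : ∀ x : ℕ, d ∣ a * x + c ↔ a * x + c ≡ 0 [MOD d] := fun x =>
    (Nat.modEq_zero_iff_dvd).symm
  constructor
  · intro h
    have h1 : a * b + c ≡ a * b0 + c [MOD d] := ((hz b).1 h).trans ((hz b0).1 h0).symm
    have h2 : a * b ≡ a * b0 [MOD d] := Nat.ModEq.add_right_cancel' c h1
    exact Nat.ModEq.cancel_left_of_coprime hc h2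
  · intro h
    rw [hz]
    refine Nat.ModEq.trans ?_ ((hz b0).1 h0)
    exact ((Nat.ModEq.refl a).mul h).add (Nat.ModEq.refl c)

private theorem RhC_cop {V : ℕ} {R : ℝ} {a d : ℕ} (ha : ∀ p ∈ QsV V R, ¬ p ∣ a)
    (hd : d ∣ PqV V R) : Nat.Coprime d a := by
  rw [Nat.coprime_iff_gcd_eq_one]
  by_contra hcon
  obtain ⟨p, hp, hpg⟩ := Nat.exists_prime_and_dvd hcon
  have h1 : p ∣ d := hpg.trans (Nat.gcd_dvd_left _ _)
  have h2 : p ∣ a := hpg.trans (Nat.gcd_dvd_right _ _)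
  exact ha p ((prime_dvd_PqV hp).1 (h1.trans hd)) h2

private theorem RhC_lcm {ι : Type} [Fintype ι] {b b0 : ℕ} {d : ι → ℕ} :
    (∀ i, b ≡ b0 [MOD d i]) ↔ b ≡ b0 [MOD Finset.univ.lcm d] := by
  constructor
  · intro h
    rw [Nat.modEq_iff_dvd]
    have h1 : ∀ i, ((d i : ℕ) : ℤ) ∣ (b0 : ℤ) - b := fun i => (Nat.modEq_iff_dvd).1 (h i)
    have h2 : Finset.univ.lcm d ∣ ((b0 : ℤ) - b).natAbs := by
      refine Finset.lcm_dvd fun i _ => ?_
      exact Int.natCast_dvd.1 (h1 i)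
    exact Int.natCast_dvd.2 h2
  · intro h i
    exact h.of_dvd (Finset.dvd_lcm (mem_univ i))

/-- a common prime factor of two forms divides the difference of the coefficients -/
private theorem RhC_dist {p a0 c0 a c b : ℕ} (h0 : p ∣ a0 * b + c0) (h1 : p ∣ a * b + c) :
    p ∣ Nat.dist (a0 * c) (a * c0) := by
  have e0 : (p : ℤ) ∣ (a0 : ℤ) * b + c0 := by exact_mod_cast h0
  have e1 : (p : ℤ) ∣ (a : ℤ) * b + c := by exact_mod_cast h1
  have e2 : (p : ℤ) ∣ ((a0 * c : ℕ) : ℤ) - ((a * c0 : ℕ) : ℤ) := by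
    have h2 : ((a0 * c : ℕ) : ℤ) - ((a * c0 : ℕ) : ℤ) =
        (a0 : ℤ) * ((a : ℤ) * b + c) - (a : ℤ) * ((a0 : ℤ) * b + c0) := by
      push_cast
      ring
    rw [h2]
    exact dvd_sub (Dvd.dvd.mul_left e1 _) (Dvd.dvd.mul_left e0 _)
  rcases le_total (a0 * c) (a * c0) with h | h
  · rw [Nat.dist_eq_sub_of_le h]
    have e3 : (p : ℤ) ∣ ((a * c0 - a0 * c : ℕ) : ℤ) := by
      rw [Nat.cast_sub h]
      have e4 : ((a * c0 : ℕ) : ℤ) - ((a0 * c : ℕ) : ℤ) = -(((a0 * c : ℕ) : ℤ) - ((a * c0 : ℕ) : ℤ)) := by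
        ring
      rw [e4]
      exact (dvd_neg).2 e2
    exact_mod_cast e3
  · rw [Nat.dist_eq_sub_of_le_right h]
    have e3 : (p : ℤ) ∣ ((a0 * c - a * c0 : ℕ) : ℤ) := by
      rw [Nat.cast_sub h]
      exact e2
    exact_mod_cast e3

private theorem RhC_per (a0 c0 p b : ℕ) : u3 a0 c0 p (b + p) = u3 a0 c0 p b := by
  unfold u3
  have h : p ∣ a0 * (b + p) + c0 ↔ p ∣ a0 * b + c0 := by
    have e1 : a0 * (b + p) + c0 = (a0 * b + c0) + a0 * p := by ring
    rw [e1]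
    exact (Nat.dvd_add_left (Nat.dvd_mul_left p a0))
  by_cases h1 : p ∣ a0 * b + c0
  · rw [if_pos h1, if_pos (h.2 h1)]
  · rw [if_neg h1, if_neg (fun h2 => h1 (h.1 h2))]

/-- one residue in a period -/
private theorem RhC_one {p : ℕ} (hp : 0 < p) (b0 : ℕ) :
    (range p).filter (fun b => b ≡ b0 [MOD p]) = {b0 % p} := by
  ext b
  rw [mem_filter, mem_range, mem_singleton]
  constructor
  · rintro ⟨h1, h2⟩
    have h3 : b % p = b0 % p := h2
    rw [Nat.mod_eq_of_lt h1] at h3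
    exact h3
  · intro h
    subst h
    exact ⟨Nat.mod_lt _ hp, Nat.mod_modEq _ _⟩

private theorem RhC_sol {p a0 : ℕ} (c0 : ℕ) (hp : p.Prime) (ha : ¬ p ∣ a0) :
    ∃ b1 : ℕ, p ∣ a0 * b1 + c0 := by
  haveI : Fact p.Prime := ⟨hp⟩
  have h0 : ((a0 : ℕ) : ZMod p) ≠ 0 := by
    rw [Ne, ZMod.natCast_eq_zero_iff]
    exact ha
  refine ⟨(-(((a0 : ℕ) : ZMod p)⁻¹ * ((c0 : ℕ) : ZMod p)) : ZMod p).val, ?_⟩
  rw [← ZMod.natCast_eq_zero_iff]
  push_cast
  rw [ZMod.natCast_zmod_val, mul_neg, mul_inv_cancel_left₀ h0, neg_add_cancel]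

private theorem RhC_loc0 {p a0 : ℕ} (c0 : ℕ) (hp : p.Prime) (ha : ¬ p ∣ a0) :
    ∑ b ∈ range p, u3 a0 c0 p b = 1 := by
  obtain ⟨b1, hb1⟩ := RhC_sol c0 hp ha
  have hc : Nat.Coprime p a0 := (Nat.Prime.coprime_iff_not_dvd hp).2 ha
  have h2 : (2 : ℝ) ≤ p := by exact_mod_cast hp.two_le
  have h3 : ((p : ℝ) - 1) ≠ 0 := by linarith
  have h4 : ∀ b ∈ range p, u3 a0 c0 p b = 1 / ((p : ℝ) - 1) -
      (if b ≡ b1 [MOD p] then 1 / ((p : ℝ) - 1) else 0) := by
    intro b _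
    unfold u3
    by_cases h : p ∣ a0 * b + c0
    · rw [if_pos h, if_pos ((RhC_mod hc hb1).1 h), sub_self]
    · rw [if_neg h, if_neg (fun h' => h ((RhC_mod hc hb1).2 h')), sub_zero]
  rw [Finset.sum_congr rfl h4, Finset.sum_sub_distrib, ← Finset.sum_filter, RhC_one hp.pos,
    Finset.sum_const, Finset.sum_singleton, card_range, nsmul_eq_mul]
  field_simp

private theorem RhC_loc1 {p a0 c0 b0 : ℕ} (hp : p.Prime) (ha : ¬ p ∣ a0 * b0 + c0) :
    ∑ b ∈ range p, u3 a0 c0 p b * (if b ≡ b0 [MOD p] then 1 else 0) = 1 / ((p : ℝ) - 1) := by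
  have h1 : ∀ b ∈ range p, u3 a0 c0 p b * (if b ≡ b0 [MOD p] then (1 : ℝ) else 0) =
      if b ≡ b0 [MOD p] then u3 a0 c0 p b else 0 := by
    intro b _
    split_ifs
    · rw [mul_one]
    · rw [mul_zero]
  rw [Finset.sum_congr rfl h1, ← Finset.sum_filter, RhC_one hp.pos, Finset.sum_singleton]
  unfold u3
  rw [if_neg]
  intro h
  apply ha
  have h2 : a0 * (b0 % p) + c0 ≡ a0 * b0 + c0 [MOD p] :=
    ((Nat.ModEq.refl a0).mul (Nat.mod_modEq b0 p)).add (Nat.ModEq.refl c0)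
  exact (h2.dvd_iff (dvd_refl p)).1 h

private theorem RhC_phi {V : ℕ} {R : ℝ} {D : ℕ} (hD : D ∣ PqV V R) :
    ∏ p ∈ QsV V R, (if p ∣ D then 1 / ((p : ℝ) - 1) else 1) = 1 / (D.totient : ℝ) := by
  have hD0 : D ≠ 0 := by
    rintro rfl
    exact PqV_ne (Nat.eq_zero_of_zero_dvd hD)
  have hsq : Squarefree D := PqV_squarefree.squarefree_of_dvd hD
  have hf : (QsV V R).filter (fun p => p ∣ D) = D.primeFactors := by
    ext p
    rw [mem_filter, Nat.mem_primeFactors]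
    constructor
    · rintro ⟨h1, h2⟩
      exact ⟨(mem_QsV.1 h1).1, h2, hD0⟩
    · rintro ⟨h1, h2, _⟩
      exact ⟨(prime_dvd_PqV h1).1 (h2.trans hD), h2⟩
  rw [← Finset.prod_filter, hf, Finset.prod_div_distrib, Finset.prod_const_one]
  have h1 := Nat.totient_mul_prod_primeFactors D
  rw [Nat.prod_primeFactors_of_squarefree hsq, mul_comm] at h1
  have h2 : D.totient = ∏ p ∈ D.primeFactors, (p - 1) :=
    Nat.eq_of_mul_eq_mul_left (Nat.pos_of_ne_zero hD0) h1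
  rw [h2, Nat.cast_prod]
  congr 1
  refine Finset.prod_congr rfl fun p hp => ?_
  rw [Nat.cast_sub (Nat.prime_of_mem_primeFactors hp).one_lt.le, Nat.cast_one]

theorem tRhC (hCrt : Pool.Agent.Lib.MP_9f2731_nt.GP.Sv.S_Crt) : RhCStmt := by
  classical
  intro ι _ V R a0 c0 a c d ha0 ha hdist hd
  by_cases h : ∃ b0 : ℕ, ∀ i, d i ∣ a i * b0 + c i
  · rw [if_pos h]
    obtain ⟨b0, hb0⟩ := h
    set D := Finset.univ.lcm d with hDdef
    have hDQ : D ∣ PqV V R := Finset.lcm_dvd fun i _ => hd i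
    have hD0 : D ≠ 0 := by
      intro h0
      rw [h0] at hDQ
      exact PqV_ne (Nat.eq_zero_of_zero_dvd hDQ)
    have hsq : Squarefree D := PqV_squarefree.squarefree_of_dvd hDQ
    have hiff : ∀ b, (∀ i, d i ∣ a i * b + c i) ↔ b ≡ b0 [MOD D] := by
      intro b
      rw [hDdef, ← RhC_lcm]
      exact forall_congr' fun i => RhC_mod (RhC_cop (ha i) (hd i)) (hb0 i)
    have hiff2 : ∀ b, b ≡ b0 [MOD D] ↔ ∀ p ∈ QsV V R, p ∣ D → b ≡ b0 [MOD p] := by
      intro b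
      constructor
      · intro h1 p _ h2
        exact h1.of_dvd h2
      · intro h1
        rw [Nat.modEq_iff_dvd]
        have h2 : D ∣ ((b0 : ℤ) - b).natAbs := by
          rw [← Nat.prod_primeFactors_of_squarefree hsq]
          refine Finset.prod_primes_dvd _ (fun p hp => (Nat.prime_of_mem_primeFactors hp).prime) ?_
          intro p hp
          have h3 := Nat.dvd_of_mem_primeFactors hp
          have h4 := h1 p ((prime_dvd_PqV (Nat.prime_of_mem_primeFactors hp)).1 (h3.trans hDQ)) h3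
          exact Int.natCast_dvd.1 ((Nat.modEq_iff_dvd).1 h4)
        exact Int.natCast_dvd.2 h2
    have hnd : ∀ p ∈ QsV V R, p ∣ D → ¬ p ∣ a0 * b0 + c0 := by
      intro p hp h3 h2
      have hpp := (mem_QsV.1 hp).1
      have h4 : ∃ i, p ∣ d i := by
        by_contra hno
        push Not at hno
        have h5 : Finset.univ.lcm d ∣ ∏ i, d i :=
          Finset.lcm_dvd fun i hi => Finset.dvd_prod_of_mem d hi
        obtain ⟨i, _, hi⟩ := (Prime.dvd_finsetProd_iff hpp.prime _).1 (h3.trans h5)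
        exact hno i hi
      obtain ⟨i, hi⟩ := h4
      exact hdist i p hp (RhC_dist h2 (hi.trans (hb0 i)))
    have e1 : ∀ b ∈ range (PqV V R), (∏ p ∈ QsV V R, u3 a0 c0 p b) *
        (if ∀ i, d i ∣ a i * b + c i then (1 : ℝ) else 0) =
        ∏ p ∈ QsV V R, (u3 a0 c0 p b * (if p ∣ D then (if b ≡ b0 [MOD p] then 1 else 0) else 1)) := by
      intro b _
      rw [Finset.prod_mul_distrib]
      congr 1
      by_cases hb : ∀ i, d i ∣ a i * b + c i
      · rw [if_pos hb]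
        symm
        refine Finset.prod_eq_one fun p hp => ?_
        by_cases h1 : p ∣ D
        · rw [if_pos h1, if_pos ((hiff2 b).1 ((hiff b).1 hb) p hp h1)]
        · rw [if_neg h1]
      · rw [if_neg hb]
        have h1 : ¬ ∀ p ∈ QsV V R, p ∣ D → b ≡ b0 [MOD p] := fun h2 =>
          hb ((hiff b).2 ((hiff2 b).2 h2))
        push Not at h1
        obtain ⟨p, hp, h2, h3⟩ := h1
        symm
        refine Finset.prod_eq_zero hp ?_
        rw [if_pos h2, if_neg h3]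
    have h2 := hCrt ℝ (QsV V R) (fun p b => u3 a0 c0 p b *
      (if p ∣ D then (if b ≡ b0 [MOD p] then 1 else 0) else 1)) (fun p hp => (mem_QsV.1 hp).1) (by
        intro p _ b
        have h3 : b + p ≡ b0 [MOD p] ↔ b ≡ b0 [MOD p] := by
          unfold Nat.ModEq
          rw [Nat.add_mod_right]
        show u3 a0 c0 p (b + p) * (if p ∣ D then (if b + p ≡ b0 [MOD p] then (1 : ℝ) else 0) else 1) =
          u3 a0 c0 p b * (if p ∣ D then (if b ≡ b0 [MOD p] then (1 : ℝ) else 0) else 1)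
        rw [RhC_per]
        simp only [h3])
    rw [Finset.sum_congr rfl e1]
    unfold PqV
    rw [h2, ← RhC_phi hDQ]
    refine Finset.prod_congr rfl fun p hp => ?_
    have hpp := (mem_QsV.1 hp).1
    by_cases h1 : p ∣ D
    · simp only [if_pos h1]
      exact RhC_loc1 hpp (hnd p hp h1)
    · simp only [if_neg h1, mul_one]
      exact RhC_loc0 c0 hpp (ha0 p hp)
  · rw [if_neg h]
    refine Finset.sum_eq_zero fun b _ => ?_
    rw [if_neg (fun hb => h ⟨b, hb⟩), mul_zero]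

end Pool.Agent.Lib.BE
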