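import Pool.Agent.Lib.BE.SpecA

/-!
PROJECT BE, module S1C (helper48): the mean value of the product of the sieve sums over an interval, for the
forms `a b + c` (port of CG/Ma/S1F.lean).
-/

set_option autoImplicit false

namespace Pool.Agent.Lib.BE

open Finset

open Pool.Agent.Lib.MP_9f2731_nt.GP Pool.Agent.Lib.MP_9f2731_nt.GP.Sv Pool.Agent.Lib.MP_9f2731_nt.QL
open Pool.Agent.Lib.MP_9f2731_nt.QL.Sw Pool.Agent.Lib.MP_9f2731_nt.CG Pool.Agent.Lib.MP_9f2731_nt.CG.Ma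

private theorem S1C_pair {σ : Type} [Fintype σ] (g : σ × Bool → ℝ) :
    ∏ i, g i = ∏ j : σ, (g (j, true) * g (j, false)) := by
  rw [Fintype.prod_prod_type]
  refine Finset.prod_congr rfl fun j _ => ?_
  rw [Fintype.prod_bool]

private theorem S1C_inv (V : ℕ) (R : ℝ) : ∏ p ∈ QsV V R, (1 / (p : ℝ)) = 1 / (PqV V R : ℝ) := by
  unfold PqV
  rw [Finset.prod_div_distrib, Finset.prod_const_one]
  push_cast
  rfl

theorem tS1C (h1 : ExCStmt) (h2 : LoACStmt) (h3 : SuFStmt) (h4 : PeCStmt) : S1CStmt := by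
  intro n
  obtain ⟨C, hC, hS⟩ := h3 n
  refine ⟨C, hC, ?_⟩
  intro σ _ _ V w X P0 c1 R B T a c f y hn hw hV hP0 hR hP ha hd hB hf hT
  have hsup : ∀ i, Sup R (f i) := by
    intro i m hm
    refine (hf i).2.2 m ?_
    rcases hm with h | h
    · exact Or.inl h
    · exact Or.inr (lt_of_le_of_lt (hf i).2.1 h)
  have k1 := h4 (σ × Bool) V R B X P0 c1 (fun i => a i.1) (fun i => c i.1) f y hP0 (fun p hp => (hP p hp).2)
    (fun i p hp => ha i.1 p hp) hB (fun i => ⟨(hf i).1, (hf i).2.2⟩)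
  have k2 := h1 (σ × Bool) V R (fun p _ => 1 / (p : ℝ)) f (fun i => a i.1) (fun i => c i.1) (fun _ _ _ => rfl)
  have k3 : (∑ b ∈ range (PqV V R), ∏ i : σ × Bool, AF V R (f i) (a i.1 * b + c i.1)) / PqV V R =
      act (∏ p ∈ QsV V R, (1 + (1 / (p : ℝ)) • ∑ j : σ, vv p j)) (PhF f) 1 := by
    have k4 : ∏ p ∈ QsV V R, ∑ b ∈ range p, (1 / (p : ℝ)) • ∏ i : σ × Bool,
        (1 - ind p (a i.1 * b + c i.1) • mon (e i p)) =
        ∏ p ∈ QsV V R, (1 + (1 / (p : ℝ)) • ∑ j : σ, vv p j) := by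
      refine Finset.prod_congr rfl fun p hp => ?_
      exact h2 σ p a c (mem_QsV.1 hp).1 (fun j => ha j p hp) (fun j k hjk => hd j k hjk p hp)
    rw [← k4, ← k2, S1C_inv, ← Finset.mul_sum]
    ring
  have k5 := hS σ V w R (fun p => 1 / (p : ℝ)) f T hn hw hV hR (fun p hp => by
    refine ⟨(hP p hp).1, ?_⟩
    rw [sub_self, abs_zero]
    positivity) hsup hT
  have e1 : ∀ b : ℕ, ∏ j, (AF V R (f (j, true)) (a j * b + c j) * AF V R (f (j, false)) (a j * b + c j)) =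
      ∏ i : σ × Bool, AF V R (f i) (a i.1 * b + c i.1) := by
    intro b
    rw [S1C_pair]
  simp_rw [e1]
  rw [k3] at k1
  have hX : (0 : ℝ) ≤ (X : ℝ) / P0 := by positivity
  set S := ∑ b ∈ (Icc 1 X).filter (fun b => b ≡ c1 [MOD P0]), ∏ i : σ × Bool, AF V R (f i) (a i.1 * b + c i.1)
  set A := act (∏ p ∈ QsV V R, (1 + (1 / (p : ℝ)) • ∑ j : σ, vv p j)) (PhF f) 1
  set M := ∏ j : σ, TTF V R (f (j, true)) (f (j, false)) 1 1
  have k6 : S - X / P0 * M = (S - X / P0 * A) + X / P0 * (A - M) := by ring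
  rw [k6]
  refine (abs_add_le _ _).trans ?_
  rw [abs_mul, abs_of_nonneg hX, add_comm]
  exact add_le_add (mul_le_mul_of_nonneg_left k5 hX) k1

end Pool.Agent.Lib.BE
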