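import Pool.Agent.Lib.BE.SpecA

/-!
PROJECT BE (note 5284), part A, module SpC (port of CG/Ma/SpF.lean): the mean over a set which is well distributed in
residue classes, for the forms `a b + c`.
-/

set_option autoImplicit false

namespace Pool.Agent.Lib.BE

open Finset

open Pool.Agent.Lib.MP_9f2731_nt.GP Pool.Agent.Lib.MP_9f2731_nt.GP.Sv Pool.Agent.Lib.MP_9f2731_nt.QL Pool.Agent.Lib.MP_9f2731_nt.QL.Sw Pool.Agent.Lib.MP_9f2731_nt.CG Pool.Agent.Lib.MP_9f2731_nt.CG.Ma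

private theorem SpC_AF {V : ℕ} {R y : ℝ} {f : ℕ → ℝ} (hf : Sup y f) (n : ℕ) :
    AF V R f n = ∑ d ∈ (PqV V R).divisors.filter (fun d : ℕ => (d : ℝ) ≤ y),
      (((ArithmeticFunction.moebius d : ℤ) : ℝ) * f d) * ind d n := by
  unfold AF
  rw [Finset.sum_filter]
  refine Finset.sum_congr rfl fun d _ => ?_
  split_ifs with h
  · ring
  · push Not at h
    rw [hf d (Or.inr h), mul_zero]

private theorem SpC_ind {ι : Type} [Fintype ι] (d n : ι → ℕ) :
    ∏ i, ind (d i) (n i) = if ∀ i, d i ∣ n i then 1 else 0 := by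
  split_ifs with h
  · refine Finset.prod_eq_one fun i _ => ?_
    unfold ind
    rw [if_pos (h i)]
  · push Not at h
    obtain ⟨i, hi⟩ := h
    refine Finset.prod_eq_zero (mem_univ i) ?_
    unfold ind
    rw [if_neg hi]

open Classical in
private theorem SpC_sum {ι : Type} [Fintype ι] [DecidableEq ι] {V : ℕ} {R : ℝ} {f : ι → ℕ → ℝ}
    {y : ι → ℝ} (hf : ∀ i, Sup (y i) (f i)) (a c : ι → ℕ) (B : Finset ℕ) (w : ℕ → ℝ) :
    ∑ b ∈ B, w b * ∏ i, AF V R (f i) (a i * b + c i) =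
      ∑ d ∈ Fintype.piFinset (fun i : ι => (PqV V R).divisors.filter (fun d : ℕ => (d : ℝ) ≤ y i)),
        (∏ i, (((ArithmeticFunction.moebius (d i) : ℤ) : ℝ) * f i (d i))) *
          ∑ b ∈ B, w b * (if ∀ i, d i ∣ a i * b + c i then 1 else 0) := by
  have h1 : ∀ b ∈ B, w b * ∏ i, AF V R (f i) (a i * b + c i) =
      ∑ d ∈ Fintype.piFinset (fun i : ι => (PqV V R).divisors.filter (fun d : ℕ => (d : ℝ) ≤ y i)),
        (∏ i, (((ArithmeticFunction.moebius (d i) : ℤ) : ℝ) * f i (d i))) *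
          (w b * (if ∀ i, d i ∣ a i * b + c i then 1 else 0)) := by
    intro b _
    have h2 : ∏ i, AF V R (f i) (a i * b + c i) = ∏ i, ∑ d ∈ (PqV V R).divisors.filter
        (fun d : ℕ => (d : ℝ) ≤ y i),
        (((ArithmeticFunction.moebius d : ℤ) : ℝ) * f i d) * ind d (a i * b + c i) :=
      Finset.prod_congr rfl fun i _ => SpC_AF (hf i) _
    rw [h2, Finset.prod_univ_sum, Finset.mul_sum]
    refine Finset.sum_congr rfl fun d _ => ?_
    rw [Finset.prod_mul_distrib, SpC_ind]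
    have h3 : (if ∀ i, d i ∣ a i * b + c i then (1 : ℝ) else 0) =
        (if ∀ i, d i ∣ (fun i => a i * b + c i) i then (1 : ℝ) else 0) := rfl
    split_ifs <;> ring
  rw [Finset.sum_congr rfl h1, Finset.sum_comm]
  refine Finset.sum_congr rfl fun d _ => ?_
  rw [← Finset.mul_sum]

private theorem SpC_coef {ι : Type} [Fintype ι] {B : ℝ} {f : ι → ℕ → ℝ} (hB : ∀ i n, |f i n| ≤ B)
    (d : ι → ℕ) :
    |∏ i, (((ArithmeticFunction.moebius (d i) : ℤ) : ℝ) * f i (d i))| ≤ B ^ Fintype.card ι := by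
  have h0 : B ^ Fintype.card ι = ∏ _i : ι, B := by
    rw [Finset.prod_const, card_univ]
  rw [h0, Finset.abs_prod]
  refine Finset.prod_le_prod (fun i _ => abs_nonneg _) fun i _ => ?_
  rw [abs_mul]
  have h1 : |((ArithmeticFunction.moebius (d i) : ℤ) : ℝ)| ≤ 1 := by
    have := ArithmeticFunction.abs_moebius_le_one (n := d i)
    exact_mod_cast this
  calc _ ≤ 1 * B := mul_le_mul h1 (hB i _) (abs_nonneg _) zero_le_one
    _ = B := one_mul _

private theorem SpC_per (a0 c0 p b : ℕ) : u3 a0 c0 p (b + p) = u3 a0 c0 p b := by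
  unfold u3
  have h : p ∣ a0 * (b + p) + c0 ↔ p ∣ a0 * b + c0 := by
    have e1 : a0 * (b + p) + c0 = (a0 * b + c0) + a0 * p := by ring
    rw [e1]
    exact (Nat.dvd_add_left (Nat.dvd_mul_left p a0))
  by_cases h1 : p ∣ a0 * b + c0
  · rw [if_pos h1, if_pos (h.2 h1)]
  · rw [if_neg h1, if_neg (fun h2 => h1 (h.1 h2))]

theorem tSpC (h1 : CoCStmt) (h2 : ExCStmt) : SpCStmt := by
  classical
  intro ι _ _ V R B a0 c0 a c 𝒷 err f y ha0 ha hdist herr hE hB hf
  have hex := h2 ι V R (u3 a0 c0) f a c (fun p _ b => SpC_per a0 c0 p b)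
  rw [← hex, SpC_sum (fun i => (hf i).2) a c (range (PqV V R)) (fun b => ∏ p ∈ QsV V R, u3 a0 c0 p b)]
  have e1 : ∑ b ∈ 𝒷, ∏ i, AF V R (f i) (a i * b + c i) =
      ∑ b ∈ 𝒷, (fun _ : ℕ => (1 : ℝ)) b * ∏ i, AF V R (f i) (a i * b + c i) := by
    refine Finset.sum_congr rfl fun b _ => ?_
    rw [one_mul]
  rw [e1, SpC_sum (fun i => (hf i).2) a c 𝒷 (fun _ => 1), Finset.mul_sum, ← Finset.sum_sub_distrib,
    Finset.mul_sum]
  refine (Finset.abs_sum_le_sum_abs _ _).trans (Finset.sum_le_sum fun d hd => ?_)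
  rw [Fintype.mem_piFinset] at hd
  have hdd : ∀ i, d i ∣ PqV V R := fun i => Nat.dvd_of_mem_divisors (mem_filter.1 (hd i)).1
  have h3 := h1 ι V R a0 c0 a c d 𝒷 err ha0 ha hdist hdd herr hE
  have h4 : ∑ b ∈ 𝒷, (fun _ : ℕ => (1 : ℝ)) b * (if ∀ i, d i ∣ a i * b + c i then 1 else 0) =
      ((𝒷.filter (fun b => ∀ i, d i ∣ a i * b + c i)).card : ℝ) := by
    rw [← Finset.sum_boole]
    refine Finset.sum_congr rfl fun b _ => ?_
    rw [one_mul]
  rw [h4]
  have h5 : ∀ u v w z : ℝ, u * v - w * (u * z) = u * (v - w * z) := by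
    intro u v w z
    ring
  rw [h5, abs_mul]
  exact mul_le_mul (SpC_coef hB d) h3 (abs_nonneg _) ((abs_nonneg _).trans (SpC_coef hB d))

end Pool.Agent.Lib.BE
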